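import Pool.Agent.Helper9.KumWA.Ends

/-!
# Weak approximation for `ℚ` including the real place (module RG)
-/

namespace KumWA

open Classical Topology

/-- the absolute values of the index set `Option ι` -/
private noncomputable def rgv {ι : Type*} (q : ι → ℕ) [∀ i, Fact (q i).Prime] :
    Option ι → AbsoluteValue ℚ ℝ
  | none => Rat.AbsoluteValue.real
  | some i => Rat.AbsoluteValue.padic (q i)

private theorem rg_real_nontrivial : (Rat.AbsoluteValue.real).IsNontrivial := by
  refine ⟨2, two_ne_zero, ?_⟩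
  rw [Rat.AbsoluteValue.real_eq_abs]
  norm_num

private theorem rg_real_padic (p : ℕ) [hp : Fact p.Prime] :
    ¬ (Rat.AbsoluteValue.real).IsEquiv (Rat.AbsoluteValue.padic p) := by
  intro H
  have h1 : Rat.AbsoluteValue.padic p (p : ℚ) < 1 := by
    rw [Rat.AbsoluteValue.padic_eq_padicNorm]
    have := padicNorm.padicNorm_p_lt_one_of_prime (p := p)
    exact_mod_cast this
  have h2 := H.lt_one_iff.2 h1
  rw [Rat.AbsoluteValue.real_eq_abs] at h2
  have h3 : (1 : ℝ) < (p : ℝ) := by exact_mod_cast hp.out.one_lt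
  have h4 : ((|(p : ℚ)| : ℚ) : ℝ) = (p : ℝ) := by simp
  have h5 : (p : ℝ) < 1 := by rw [← h4]; exact_mod_cast h2
  linarith

theorem weak_approx_real {ι : Type*} [Finite ι] (q : ι → ℕ) [hq : ∀ i, Fact (q i).Prime]
    (hinj : Function.Injective q) (x : ∀ i, ℚ_[q i]) (y : ℝ) (ε : ι → ℝ) (hε : ∀ i, 0 < ε i)
    (δ : ℝ) (hδ : 0 < δ) :
    ∃ t : ℚ, (∀ i, ‖emb (q i) t - x i‖ < ε i) ∧ |(t : ℝ) - y| < δ := by
  have hr : ∀ i, ∃ r : ℚ, ‖x i - r‖ < ε i := fun i => Padic.rat_dense (q i) (x i) (hε i)
  choose r hr using hr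
  obtain ⟨s, hs⟩ : ∃ s : ℚ, |(s : ℝ) - y| < δ / 2 := by
    obtain ⟨s, hs1, hs2⟩ := exists_rat_btwn (show y < y + δ / 2 by linarith)
    refine ⟨s, ?_⟩
    rw [abs_lt]
    constructor <;> linarith
  let r' : Option ι → ℚ := fun o => match o with
    | none => s
    | some i => r i
  let ε' : Option ι → ℝ := fun o => match o with
    | none => δ / 2
    | some i => ε i
  have hε' : ∀ o, 0 < ε' o := by
    rintro (_ | i)
    · exact half_pos hδ
    · exact hε i
  have D := AbsoluteValue.denseRange_algebraMap_pi (F := ℚ) (ι := Option ι)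
    (v := rgv q) (by
      rintro (_ | i)
      · exact rg_real_nontrivial
      · exact padic_isNontrivial (q i))
    (by
      rintro (_ | i) (_ | j) hij
      · exact absurd rfl hij
      · exact rg_real_padic (q j)
      · intro H
        exact rg_real_padic (q i) H.symm
      · exact not_padic_isEquiv (fun h => hij (congrArg some (hinj h))))
  have key := D.exists_mem_open (s := Set.univ.pi fun o => Metric.ball
    ((WithAbs.equiv (rgv q o)).symm (r' o)) (ε' o))
    (isOpen_set_pi Set.finite_univ (fun i _ => Metric.isOpen_ball))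
    ⟨fun o => (WithAbs.equiv (rgv q o)).symm (r' o), fun o _ => Metric.mem_ball_self (hε' o)⟩
  obtain ⟨t, ht⟩ := key
  refine ⟨t, fun i => ?_, ?_⟩
  · have h1 := ht (some i) (Set.mem_univ _)
    rw [Metric.mem_ball, dist_eq_norm] at h1
    have h2 : ‖((t - r i : ℚ) : ℚ_[q i])‖ < ε i := by
      rw [Padic.eq_padicNorm]
      exact h1
    have e1 : emb (q i) t - x i =
        ((t - r i : ℚ) : ℚ_[q i]) + (((r i : ℚ) : ℚ_[q i]) - x i) := by
      have : emb (q i) t = ((t : ℚ) : ℚ_[q i]) := rfl
      rw [this]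
      push_cast
      ring
    rw [e1]
    apply lt_of_le_of_lt (Padic.nonarchimedean _ _)
    apply max_lt h2
    rw [norm_sub_rev]
    exact hr i
  · have h1 := ht none (Set.mem_univ _)
    rw [Metric.mem_ball, dist_eq_norm] at h1
    have h2 : Rat.AbsoluteValue.real (t - s) < δ / 2 := h1
    have h3 : |(t : ℝ) - s| < δ / 2 := by
      have : ((|t - s| : ℚ) : ℝ) = |(t : ℝ) - s| := by push_cast; rfl
      rwa [Rat.AbsoluteValue.real_eq_abs, this] at h2
    rw [abs_lt] at h3 hs ⊢
    constructor <;> linarith [h3.1, h3.2, hs.1, hs.2]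

end KumWA
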