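import Pool.Agent.Helper98.K3R.RA

/-!
# The surface at the real place (module RH)
-/

namespace KumWA

open Classical Topology

/-- square roots close to one -/
private theorem rh_sqrt_near_one {ε : ℝ} (hε : 0 < ε) :
    ∃ δ : ℝ, 0 < δ ∧ ∀ r : ℝ, |r - 1| < δ → ∃ w : ℝ, w ^ 2 = r ∧ |w - 1| < ε := by
  have h1 : ContinuousAt Real.sqrt 1 := Real.continuous_sqrt.continuousAt
  obtain ⟨δ, hδ, H⟩ := Metric.continuousAt_iff.1 h1 ε hε
  refine ⟨min δ 1, lt_min hδ one_pos, fun r hr => ?_⟩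
  have h2 := H (x := r) (by rw [Real.dist_eq]; exact lt_of_lt_of_le hr (min_le_left _ _))
  rw [Real.dist_eq, Real.sqrt_one] at h2
  have h3 : |r - 1| < 1 := lt_of_lt_of_le hr (min_le_right _ _)
  rw [abs_lt] at h3
  exact ⟨Real.sqrt r, Real.sq_sqrt (by linarith), h2⟩

private theorem rh_ptx : Continuous (fun u : Pt ℝ => u.x) :=
  continuous_fst.comp continuous_subtype_val

private theorem rh_pty : Continuous (fun u : Pt ℝ => u.y) :=
  (continuous_fst.comp continuous_snd).comp continuous_subtype_val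

private theorem rh_ptz : Continuous (fun u : Pt ℝ => u.z) :=
  (continuous_snd.comp continuous_snd).comp continuous_subtype_val

private theorem rh_ff : Continuous (ff : ℝ → ℝ) := by
  unfold ff; fun_prop

/-- neighbourhoods in `Pt` -/
private theorem rh_nhds {v : Pt ℝ} {U : Set (Pt ℝ)} (hU : U ∈ 𝓝 v) :
    ∃ ε : ℝ, 0 < ε ∧ ∀ u : Pt ℝ, |u.x - v.x| < ε → |u.y - v.y| < ε → |u.z - v.z| < ε →
      u ∈ U := by
  obtain ⟨V, hV, hVU⟩ := mem_nhds_subtype _ _ _ |>.1 hU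
  obtain ⟨ε, hε, hball⟩ := Metric.mem_nhds_iff.1 hV
  refine ⟨ε, hε, fun u h1 h2 h3 => hVU ?_⟩
  apply hball
  rw [Metric.mem_ball, Prod.dist_eq, Prod.dist_eq, max_lt_iff, max_lt_iff, Real.dist_eq,
    Real.dist_eq, Real.dist_eq]
  exact ⟨h1, h2, h3⟩

/-- evaluation of a function continuous at a point of `ℝ × ℝ` -/
private theorem rh_pair {g : ℝ × ℝ → ℝ} {a b : ℝ} (h : ContinuousAt g (a, b)) {ε : ℝ}
    (hε : 0 < ε) :
    ∃ δ : ℝ, 0 < δ ∧ ∀ a' b' : ℝ, |a' - a| < δ → |b' - b| < δ → |g (a', b') - g (a, b)| < ε := by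
  obtain ⟨δ, hδ, H⟩ := Metric.continuousAt_iff.1 h ε hε
  refine ⟨δ, hδ, fun a' b' h1 h2 => ?_⟩
  have := H (x := (a', b')) (by
    rw [Prod.dist_eq, max_lt_iff, Real.dist_eq, Real.dist_eq]
    exact ⟨h1, h2⟩)
  rwa [Real.dist_eq] at this

theorem loc_f1_real {v : Pt ℝ} {d : ℝ} {P Q : E d} (hrep : Rep v d P Q)
    {U : Set (Pt ℝ)} (hU : U ∈ 𝓝 v) :
    ∃ R : ℝ, 0 < R ∧ ∀ A B : E d, Far R (A - P) → Far R (B - Q) → A ≠ 0 ∧ B ≠ 0 ∧ yc A ≠ 0 ∧
      yc B ≠ 0 ∧ ∀ u : Pt ℝ, Rep u d A B → u ∈ U := by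
  obtain ⟨hd, hP, hQ, hx, hy, hz⟩ := id hrep
  obtain ⟨hyP, hyQ⟩ := hrep.yc_ne
  obtain ⟨ε, hε, H⟩ := rh_nhds hU
  have hdn : 0 < |d| := abs_pos.2 hd
  have hyPn : 0 < |yc P| := abs_pos.2 hyP
  have hyQn : 0 < |yc Q| := abs_pos.2 hyQ
  let g : ℝ × ℝ → ℝ := fun q => q.1 * q.2 / d ^ 3
  have cg : ContinuousAt g (yc P, yc Q) := by
    apply Continuous.continuousAt
    fun_prop
  have vg : g (yc P, yc Q) = v.z := by
    simp only [g]
    rw [← hz]
    field_simp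
  obtain ⟨δ, hδ, Hg⟩ := rh_pair cg hε
  set η : ℝ := min (min (ε * |d|) δ) (min |yc P| |yc Q|) with hη
  have hηpos : 0 < η := by
    apply lt_min
    · apply lt_min
      · positivity
      · exact hδ
    · exact lt_min hyPn hyQn
  obtain ⟨R₁, hR₁, H1⟩ := close_of_far hP hηpos
  obtain ⟨R₂, -, H2⟩ := close_of_far hQ hηpos
  refine ⟨max R₁ R₂, lt_max_of_lt_left hR₁, ?_⟩
  intro A B hA hB
  obtain ⟨a1, a2, a3⟩ := H1 (A - P) (hA.mono (le_max_left _ _))
  obtain ⟨b1, b2, b3⟩ := H2 (B - Q) (hB.mono (le_max_right _ _))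
  rw [add_sub_cancel] at a1 a2 a3 b1 b2 b3
  have η1 : η ≤ ε * |d| := (min_le_left _ _).trans (min_le_left _ _)
  have η2 : η ≤ δ := (min_le_left _ _).trans (min_le_right _ _)
  have η3 : η ≤ |yc P| := (min_le_right _ _).trans (min_le_left _ _)
  have η4 : η ≤ |yc Q| := (min_le_right _ _).trans (min_le_right _ _)
  refine ⟨a1, b1, ?_, ?_, ?_⟩
  · intro h0
    rw [h0, zero_sub, abs_neg] at a3
    exact absurd (lt_of_lt_of_le a3 η3) (lt_irrefl _)
  · intro h0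
    rw [h0, zero_sub, abs_neg] at b3
    exact absurd (lt_of_lt_of_le b3 η4) (lt_irrefl _)
  intro u hu
  obtain ⟨-, -, -, ux, uy, uz⟩ := hu
  apply H
  · have e : u.x - v.x = (xc A - xc P) / d := by
      rw [← ux, ← hx]; field_simp
    rw [e, abs_div, div_lt_iff₀ hdn]
    exact lt_of_lt_of_le a2 η1
  · have e : u.y - v.y = (xc B - xc Q) / d := by
      rw [← uy, ← hy]; field_simp
    rw [e, abs_div, div_lt_iff₀ hdn]
    exact lt_of_lt_of_le b2 η1
  · have e : u.z = g (yc A, yc B) := by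
      simp only [g]
      rw [← uz]; field_simp
    rw [e, ← vg]
    exact Hg _ _ (lt_of_lt_of_le a3 η2) (lt_of_lt_of_le b3 η2)

theorem loc_f2_real {v : Pt ℝ} {d : ℝ} {P Q : E d} (hrep : Rep v d P Q) (R : ℝ) :
    ∀ᶠ u : Pt ℝ in 𝓝 v, ∃ c : ℝ, c ≠ 0 ∧ ff u.x = d * c ^ 2 ∧
      ∀ A B : E d, A ≠ 0 → B ≠ 0 → xc A = d * u.x → yc A = d ^ 2 * c → xc B = d * u.y →
        yc B = d * u.z / c → Far R (A - P) ∧ Far R (B - Q) := by
  obtain ⟨hd, hP, hQ, hx, hy, hz⟩ := id hrep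
  obtain ⟨hyP, hyQ⟩ := hrep.yc_ne
  obtain ⟨ε₁, hε₁, H1⟩ := far_of_close hP hyP R
  obtain ⟨ε₂, hε₂, H2⟩ := far_of_close hQ hyQ R
  have hfx := hrep.ffx
  have hfv : ff v.x ≠ 0 := v.hfx
  have hdn : 0 < |d| := abs_pos.2 hd
  have hyPn : 0 < |yc P| := abs_pos.2 hyP
  -- `(w, z) ↦ d ^ 3 * z / (w * yc P)`
  let g : ℝ × ℝ → ℝ := fun q => d ^ 3 * q.2 / (q.1 * yc P)
  have cg : ContinuousAt g (1, v.z) := by
    apply ContinuousAt.div
    · fun_prop
    · fun_prop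
    · simpa using hyP
  have vg : g (1, v.z) = yc Q := by
    simp only [g]
    field_simp
    linear_combination hz
  obtain ⟨δ, hδ, Hg⟩ := rh_pair cg hε₂
  -- the root
  obtain ⟨δ', hδ', Hs⟩ := rh_sqrt_near_one (ε := min (min δ 1) (ε₁ / |yc P|))
    (lt_min (lt_min hδ one_pos) (by positivity))
  have c1 : Continuous (fun u : Pt ℝ => |ff u.x / ff v.x - 1|) := by
    have := (rh_ff.comp rh_ptx)
    exact ((this.div_const _).sub continuous_const).abs
  have c2 : Continuous (fun u : Pt ℝ => |d * u.x - xc P|) :=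
    ((continuous_const.mul rh_ptx).sub continuous_const).abs
  have c3 : Continuous (fun u : Pt ℝ => |d * u.y - xc Q|) :=
    ((continuous_const.mul rh_pty).sub continuous_const).abs
  have c4 : Continuous (fun u : Pt ℝ => |u.z - v.z|) :=
    (rh_ptz.sub continuous_const).abs
  have z1 : |ff v.x / ff v.x - 1| = 0 := by rw [div_self hfv]; simp
  have z2 : |d * v.x - xc P| = 0 := by rw [← hx]; simp [mul_comm]
  have z3 : |d * v.y - xc Q| = 0 := by rw [← hy]; simp [mul_comm]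
  have z4 : |v.z - v.z| = 0 := by simp
  have e1 : ∀ᶠ u : Pt ℝ in 𝓝 v, |ff u.x / ff v.x - 1| < δ' :=
    c1.continuousAt.eventually_lt continuousAt_const (by rw [z1]; exact hδ')
  have e2 : ∀ᶠ u : Pt ℝ in 𝓝 v, |d * u.x - xc P| < ε₁ :=
    c2.continuousAt.eventually_lt continuousAt_const (by rw [z2]; exact hε₁)
  have e3 : ∀ᶠ u : Pt ℝ in 𝓝 v, |d * u.y - xc Q| < ε₂ :=
    c3.continuousAt.eventually_lt continuousAt_const (by rw [z3]; exact hε₂)
  have e4 : ∀ᶠ u : Pt ℝ in 𝓝 v, |u.z - v.z| < δ :=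
    c4.continuousAt.eventually_lt continuousAt_const (by rw [z4]; exact hδ)
  filter_upwards [e1, e2, e3, e4] with u h1 h2 h3 h4
  obtain ⟨w, hw, hw1⟩ := Hs _ h1
  have hwδ : |w - 1| < δ := lt_of_lt_of_le hw1 ((min_le_left _ _).trans (min_le_left _ _))
  have hw1' : |w - 1| < 1 := lt_of_lt_of_le hw1 ((min_le_left _ _).trans (min_le_right _ _))
  have hwε : |w - 1| < ε₁ / |yc P| := lt_of_lt_of_le hw1 (min_le_right _ _)
  have hw0 : w ≠ 0 := by
    rintro rfl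
    simp at hw1'
  refine ⟨w * yc P / d ^ 2, ?_, ?_, ?_⟩
  · exact div_ne_zero (mul_ne_zero hw0 hyP) (pow_ne_zero _ hd)
  · have : ff u.x = w ^ 2 * ff v.x := by rw [hw]; field_simp
    rw [this]
    have h6 : ff v.x = yc P ^ 2 / d ^ 3 := by
      rw [eq_div_iff (pow_ne_zero _ hd)]; linear_combination hfx
    rw [h6]; field_simp
  · intro A B hA hB xA yA xB yB
    constructor
    · apply H1 A hA
      · rw [xA]; exact h2
      · rw [yA]
        have e : d ^ 2 * (w * yc P / d ^ 2) - yc P = (w - 1) * yc P := by field_simp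
        rw [e, abs_mul]
        rwa [lt_div_iff₀ hyPn] at hwε
    · apply H2 B hB
      · rw [xB]; exact h3
      · have e : yc B = g (w, u.z) := by
          rw [yB]; simp only [g]; field_simp
        rw [e, ← vg]
        exact Hg w u.z hwδ h4

theorem iota_nhds_real {w : Pt ℝ} (hw : IOK w) {U : Set (Pt ℝ)}
    (hU : U ∈ 𝓝 (iota w hw)) : ∀ᶠ u in 𝓝 w, ∃ h : IOK u, iota u h ∈ U := by
  obtain ⟨ε, hε, H⟩ := rh_nhds hU
  have cx := rh_ptx
  have cy := rh_pty
  have cz := rh_ptz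
  have cD : Continuous (fun u : Pt ℝ => Dn u.x u.y) := by
    unfold Dn; fun_prop
  have cs : Continuous (fun u : Pt ℝ => u.x + u.y + 4) := by fun_prop
  have cq : Continuous (fun u : Pt ℝ => qn u.x u.y) := by
    unfold qn; fun_prop
  have e1 : ∀ᶠ u in 𝓝 w, Dn u.x u.y ≠ 0 := cD.continuousAt.eventually_ne hw.1
  have e2 : ∀ᶠ u in 𝓝 w, u.x + u.y + 4 ≠ 0 := cs.continuousAt.eventually_ne hw.2.1
  have e3 : ∀ᶠ u in 𝓝 w, qn u.x u.y ≠ 0 := cq.continuousAt.eventually_ne hw.2.2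
  have crho : ContinuousAt (fun u : Pt ℝ => rho u.x u.y) w := by
    unfold rho
    exact (continuous_const.mul cs).continuousAt.div cD.continuousAt hw.1
  have ckap : ContinuousAt (fun u : Pt ℝ => kap u.x u.y) w := by
    unfold kap
    exact ((continuous_const.mul cs).mul cq).continuousAt.div (cD.pow 3).continuousAt
      (pow_ne_zero _ hw.1)
  have f1 : ∀ᶠ u in 𝓝 w, |rho u.x u.y * u.x - rho w.x w.y * w.x| < ε := by
    have : ContinuousAt (fun u : Pt ℝ => |rho u.x u.y * u.x - rho w.x w.y * w.x|) w :=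
      ((crho.mul cx.continuousAt).sub continuousAt_const).abs
    exact this.eventually_lt continuousAt_const (by simpa using hε)
  have f2 : ∀ᶠ u in 𝓝 w, |rho u.x u.y * u.y - rho w.x w.y * w.y| < ε := by
    have : ContinuousAt (fun u : Pt ℝ => |rho u.x u.y * u.y - rho w.x w.y * w.y|) w :=
      ((crho.mul cy.continuousAt).sub continuousAt_const).abs
    exact this.eventually_lt continuousAt_const (by simpa using hε)
  have f3 : ∀ᶠ u in 𝓝 w, |kap u.x u.y * u.z - kap w.x w.y * w.z| < ε := by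
    have : ContinuousAt (fun u : Pt ℝ => |kap u.x u.y * u.z - kap w.x w.y * w.z|) w :=
      ((ckap.mul cz.continuousAt).sub continuousAt_const).abs
    exact this.eventually_lt continuousAt_const (by simpa using hε)
  filter_upwards [e1, e2, e3, f1, f2, f3] with u h1 h2 h3 g1 g2 g3
  exact ⟨⟨h1, h2, h3⟩, H _ g1 g2 g3⟩

end KumWA
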